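import Mathlib

/-!
# Choice of the length of the interval
-/

set_option autoImplicit false

open Filter

namespace Pool.Agent.H82.FF

theorem choose_m {p n m₀ : ℕ} (hp : p.Prime) (hp2 : p ≠ 2) (h4 : 4 ≤ m₀) (hn : m₀ ≤ n) :
    ∃ m : ℕ, m₀ ≤ m + 3 ∧ m ≤ m₀ ∧ Even (n - m) ∧ ¬ m ≡ n [MOD p] := by
  have key : ∀ m₁ : ℕ, m₀ ≤ m₁ + 1 → m₁ ≤ m₀ → Even (n - m₁) →
      ∃ m : ℕ, m₀ ≤ m + 3 ∧ m ≤ m₀ ∧ Even (n - m) ∧ ¬ m ≡ n [MOD p] := by
    intro m₁ h1 h2 h3
    by_cases h : m₁ ≡ n [MOD p]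
    · refine ⟨m₁ - 2, by omega, by omega, ?_, ?_⟩
      · have : n - (m₁ - 2) = (n - m₁) + 2 := by omega
        rw [this]
        exact h3.add even_two
      · intro h'
        have h5 : (m₁ - 2) + 0 ≡ (m₁ - 2) + 2 [MOD p] := by
          have h6 : m₁ - 2 + 2 = m₁ := by omega
          rw [h6, add_zero]
          exact h'.trans h.symm
        have h7 := Nat.ModEq.add_left_cancel' _ h5
        have h8 : p ∣ 2 := (Nat.modEq_zero_iff_dvd).1 h7.symm
        have h9 := Nat.le_of_dvd (by norm_num) h8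
        have := hp.two_le
        omega
    · exact ⟨m₁, by omega, h2, h3, h⟩
  by_cases h : Even (n - m₀)
  · exact key m₀ (by omega) le_rfl h
  · refine key (m₀ - 1) (by omega) (by omega) ?_
    rw [Nat.not_even_iff_odd] at h
    have : n - (m₀ - 1) = (n - m₀) + 1 := by omega
    rw [this]
    exact h.add_one

theorem asym (q p : ℕ) (hq : 2 ≤ q) (hp : p.Prime) (hp2 : p ≠ 2) :
    ∃ c : ℝ, 0 < c ∧ ∀ᶠ n : ℕ in atTop, ∃ m : ℕ, 0 < m ∧ Even (n - m) ∧ ¬ m ≡ n [MOD p] ∧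
      p * (2 * m * q ^ (m - m / p) + 1) ≤ n ∧
      c * ((n : ℝ) / Real.log n) ^ ((p : ℝ) / (p - 1)) ≤ (q : ℝ) ^ m := by
  have hq1 : (1 : ℝ) < q := by exact_mod_cast hq
  have hq0 : (0 : ℝ) < q := by linarith
  have hlq : 0 < Real.log q := Real.log_pos hq1
  have hp2' : (2 : ℝ) ≤ p := by exact_mod_cast hp.two_le
  have hp0 : (0 : ℝ) < p := by linarith
  have hp1 : (0 : ℝ) < (p : ℝ) - 1 := by linarith
  set K : ℝ := 8 * p * q / Real.log q with hK
  have hK0 : 0 < K := by positivity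
  set e : ℝ := (p : ℝ) / (p - 1) with he
  have he0 : 0 < e := by positivity
  have he2 : e ≤ 2 := by rw [he, div_le_iff₀ hp1]; linarith
  have hlim : Tendsto (fun n : ℕ => (n : ℝ) / Real.log n) atTop atTop := by
    have h1 : Tendsto (fun x : ℝ => x / Real.log x) atTop atTop := by
      have h2 := Real.isLittleO_log_id_atTop
      have h3 : Tendsto (fun x : ℝ => Real.log x / x) atTop (nhds 0) := h2.tendsto_div_nhds_zero
      have h4 : Tendsto (fun x : ℝ => Real.log x / x) atTop (nhdsWithin 0 (Set.Ioi 0)) := by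
        refine tendsto_nhdsWithin_iff.2 ⟨h3, ?_⟩
        filter_upwards [eventually_gt_atTop 1] with x hx
        exact div_pos (Real.log_pos hx) (by linarith)
      refine h4.inv_tendsto_nhdsGT_zero.congr fun x => ?_
      simp
    exact h1.comp tendsto_natCast_atTop_atTop
  refine ⟨K⁻¹ ^ e / (q : ℝ) ^ 4, by positivity, ?_⟩
  have hlog : Tendsto (fun n : ℕ => Real.log (n : ℝ)) atTop atTop :=
    Real.tendsto_log_atTop.comp tendsto_natCast_atTop_atTop
  filter_upwards [hlim.eventually_ge_atTop (K * (q : ℝ) ^ 4), hlog.eventually_ge_atTop K⁻¹,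
    eventually_ge_atTop (2 * p), eventually_ge_atTop 2] with n h1 h2 h3 h4
  have hn2 : (2 : ℝ) ≤ n := by exact_mod_cast h4
  have hL : 0 < Real.log (n : ℝ) := Real.log_pos (by linarith)
  set L : ℝ := Real.log n with hLdef
  set Y : ℝ := K⁻¹ * (n / L) with hY
  have hYq : (q : ℝ) ^ 4 ≤ Y := by
    rw [hY, le_inv_mul_iff₀ hK0]; exact h1
  have hY1 : 1 ≤ Y := (one_le_pow₀ hq1.le).trans hYq
  have hY0 : 0 < Y := by linarith
  have hYn : Y ≤ n := by
    rw [hY, inv_mul_le_iff₀ hK0, div_le_iff₀ hL]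
    have : 1 ≤ K * L := by
      have := mul_le_mul_of_nonneg_left h2 hK0.le
      rwa [mul_inv_cancel₀ hK0.ne'] at this
    nlinarith
  set Z : ℝ := Y ^ e with hZ
  have hYZ : Y ≤ Z := by
    have h5 : 1 ≤ e := by rw [he, le_div_iff₀ hp1]; linarith
    calc Y = Y ^ (1 : ℝ) := (Real.rpow_one _).symm
      _ ≤ Y ^ e := Real.rpow_le_rpow_of_exponent_le hY1 h5
  have hZ1 : 1 ≤ Z := hY1.trans hYZ
  have hZ0 : 0 < Z := by linarith
  obtain ⟨m₀, hm1, hm2⟩ := exists_nat_pow_near hZ1 hq1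
  have hm4 : 4 ≤ m₀ := by
    have h5 : (q : ℝ) ^ 4 < (q : ℝ) ^ (m₀ + 1) := lt_of_le_of_lt (hYq.trans hYZ) hm2
    have h6 := (pow_lt_pow_iff_right₀ hq1).1 h5
    omega
  have hlogZ : Real.log Z ≤ 2 * L := by
    rw [hZ, Real.log_rpow hY0]
    have h5 : Real.log Y ≤ L := Real.log_le_log hY0 hYn
    have h6 : 0 ≤ Real.log Y := Real.log_nonneg hY1
    nlinarith
  have hm0L : (m₀ : ℝ) * Real.log q ≤ 2 * L := by
    rw [← Real.log_pow]
    exact (Real.log_le_log (by positivity) hm1).trans hlogZ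
  -- the choice is admissible
  have hpow : ∀ m : ℕ, m ≤ m₀ → p * (2 * m * q ^ (m - m / p) + 1) ≤ n := by
    intro m hm
    have h5 : ((q : ℝ) ^ m) ^ (((p : ℝ) - 1) / p) ≤ Y := by
      have h6 : (q : ℝ) ^ m ≤ Z := (pow_le_pow_right₀ hq1.le hm).trans hm1
      calc ((q : ℝ) ^ m) ^ (((p : ℝ) - 1) / p) ≤ Z ^ (((p : ℝ) - 1) / p) :=
            Real.rpow_le_rpow (by positivity) h6 (by positivity)
        _ = Y := by
            rw [hZ, ← Real.rpow_mul hY0.le]
            have : e * (((p : ℝ) - 1) / p) = 1 := by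
              rw [he]; field_simp
            rw [this, Real.rpow_one]
    have h6 : ((m - m / p : ℕ) : ℝ) ≤ m * (((p : ℝ) - 1) / p) + 1 := by
      rw [Nat.cast_sub (Nat.div_le_self _ _)]
      have h7 : (m : ℝ) / p < ((m / p : ℕ) : ℝ) + 1 := by
        rw [div_lt_iff₀ hp0]
        have h8 := Nat.lt_div_mul_add (a := m) hp.pos
        have h9 : m < (m / p + 1) * p := by
          calc m < m / p * p + p := h8
            _ = _ := by ring
        exact_mod_cast h9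
      have h8 : (m : ℝ) * (((p : ℝ) - 1) / p) = m - m / p := by field_simp
      rw [h8]
      linarith
    have h7 : (q : ℝ) ^ (m - m / p) ≤ q * Y := by
      calc (q : ℝ) ^ (m - m / p) = (q : ℝ) ^ ((m - m / p : ℕ) : ℝ) := (Real.rpow_natCast _ _).symm
        _ ≤ (q : ℝ) ^ (m * (((p : ℝ) - 1) / p) + 1) :=
            Real.rpow_le_rpow_of_exponent_le hq1.le h6
        _ = ((q : ℝ) ^ m) ^ (((p : ℝ) - 1) / p) * q := by
            rw [Real.rpow_add hq0, Real.rpow_one, Real.rpow_mul hq0.le, Real.rpow_natCast]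
        _ ≤ Y * q := by gcongr
        _ = q * Y := by ring
    have h8 : (m : ℝ) ≤ 2 * L / Real.log q := by
      rw [le_div_iff₀ hlq]
      calc (m : ℝ) * Real.log q ≤ m₀ * Real.log q := by gcongr
        _ ≤ 2 * L := hm0L
    have h9 : (p : ℝ) * (2 * m * (q : ℝ) ^ (m - m / p) + 1) ≤ n := by
      calc (p : ℝ) * (2 * m * (q : ℝ) ^ (m - m / p) + 1)
          ≤ p * (2 * (2 * L / Real.log q) * (q * Y) + 1) := by gcongr
        _ = n / 2 + p := by
            rw [hY, hK]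
            field_simp
            ring
        _ ≤ n := by
            have : (2 : ℝ) * p ≤ n := by exact_mod_cast h3
            linarith
    exact_mod_cast h9
  have hmn : m₀ ≤ n := by
    refine le_trans ?_ (hpow m₀ le_rfl)
    have hq' : 1 ≤ q ^ (m₀ - m₀ / p) := Nat.one_le_pow _ _ (by omega)
    calc m₀ ≤ 2 * m₀ * 1 + 1 := by omega
      _ ≤ 2 * m₀ * q ^ (m₀ - m₀ / p) + 1 := by gcongr
      _ = 1 * (2 * m₀ * q ^ (m₀ - m₀ / p) + 1) := (one_mul _).symm
      _ ≤ _ := Nat.mul_le_mul_right _ hp.one_le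
  obtain ⟨m, hma, hmb, hmc, hmd⟩ := choose_m hp hp2 hm4 hmn
  refine ⟨m, by omega, hmc, hmd, hpow m hmb, ?_⟩
  have h5 : K⁻¹ ^ e / (q : ℝ) ^ 4 * ((n : ℝ) / L) ^ e = Z / (q : ℝ) ^ 4 := by
    rw [hZ, hY, Real.mul_rpow (by positivity) (by positivity)]
    ring
  rw [h5, div_le_iff₀ (by positivity), ← pow_add]
  exact hm2.le.trans (pow_le_pow_right₀ hq1.le (by omega))

end Pool.Agent.H82.FF
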