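import Pool.Agent.H82.FF.Core

/-!
# Construction of an interval of reducible polynomials
-/

set_option autoImplicit false

open Polynomial

namespace Pool.Agent.H82.FF

variable {F : Type*} [Field F] [Fintype F]

omit [Fintype F] in
theorem natDegree_top {m : ℕ} {r : F[X]} (hr : r.degree < (m : WithBot ℕ)) :
    (X ^ m + r).natDegree = m := by
  refine natDegree_eq_of_degree_eq_some ?_
  rw [degree_add_eq_left_of_degree_lt (by rwa [degree_X_pow]), degree_X_pow]

/-- a monic polynomial of degree `m` with prescribed lower coefficients on `S` -/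
noncomputable def term (S : Finset ℕ) (m : ℕ) (c : S → F) : F[X] :=
  X ^ m + ∑ j : S, C (c j) * X ^ (j : ℕ)

/-- the product of all the monic polynomials of degree `m` whose other exponents lie in `S` -/
noncomputable def prodAll (F : Type*) [Field F] [Fintype F] (S : Finset ℕ) (m : ℕ) : F[X] := by
  classical
  exact ∏ c : (S → F), term S m c

omit [Fintype F] in
theorem term_degree {S : Finset ℕ} {m : ℕ} (hS : S ⊆ Finset.range m) (c : S → F) :
    (∑ j : S, C (c j) * X ^ (j : ℕ)).degree < (m : WithBot ℕ) := by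
  rw [degree_lt_iff_coeff_zero]
  intro k hk
  rw [finsetSum_coeff]
  refine Finset.sum_eq_zero fun j _ => ?_
  rw [coeff_C_mul_X_pow, if_neg]
  have := Finset.mem_range.1 (hS j.2)
  omega

omit [Fintype F] in
theorem term_monic {S : Finset ℕ} {m : ℕ} (hS : S ⊆ Finset.range m) (c : S → F) :
    (term S m c).Monic := monic_X_pow_add (term_degree hS c)

omit [Fintype F] in
theorem term_natDegree {S : Finset ℕ} {m : ℕ} (hS : S ⊆ Finset.range m) (c : S → F) :
    (term S m c).natDegree = m :=
  natDegree_top (term_degree hS c)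

theorem prodAll_monic {S : Finset ℕ} {m : ℕ} (hS : S ⊆ Finset.range m) :
    (prodAll F S m).Monic := monic_prod_of_monic _ _ fun c _ => term_monic hS c

theorem prodAll_natDegree {S : Finset ℕ} {m : ℕ} (hS : S ⊆ Finset.range m) :
    (prodAll F S m).natDegree = Fintype.card F ^ S.card * m := by
  classical
  unfold prodAll
  rw [natDegree_prod_of_monic _ _ fun c _ => term_monic hS c]
  simp only [term_natDegree hS, Finset.sum_const, Finset.card_univ, smul_eq_mul]
  simp

theorem dvd_prodAll {S : Finset ℕ} {m : ℕ} {w : F[X]} (hw : w.Monic)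
    (hd : w.natDegree = m) (hc : ∀ j < m, j ∉ S → w.coeff j = 0) (hS : S ⊆ Finset.range m) :
    w ∣ prodAll F S m := by
  classical
  have h1 : w = term S m (fun j => w.coeff j) := by
    ext k
    unfold term
    rw [coeff_add, coeff_X_pow, finsetSum_coeff]
    simp only [coeff_C_mul, coeff_X_pow, mul_ite, mul_one, mul_zero]
    rcases lt_trichotomy k m with h | h | h
    · rw [if_neg h.ne, zero_add]
      by_cases hk : k ∈ S
      · rw [Finset.sum_eq_single (⟨k, hk⟩ : S)]
        · simp
        · intro b _ hb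
          rw [if_neg]
          rintro rfl
          exact hb (Subtype.ext rfl)
        · simp
      · rw [hc k h hk, Finset.sum_eq_zero]
        intro b _
        rw [if_neg]
        rintro rfl
        exact hk b.2
    · subst h
      rw [if_pos rfl, Finset.sum_eq_zero, add_zero, ← hd]
      · exact hw
      · intro b _
        rw [if_neg]
        exact (Finset.mem_range.1 (hS b.2)).ne'
    · rw [if_neg h.ne', Finset.sum_eq_zero, add_zero]
      · exact coeff_eq_zero_of_natDegree_lt (by omega)
      · intro b _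
        rw [if_neg]
        have := Finset.mem_range.1 (hS b.2)
        omega
  rw [h1]
  exact Finset.dvd_prod_of_mem _ (Finset.mem_univ _)

omit [Fintype F] in
/-- the coefficients of `X g' - i g` -/
theorem coeff_op (g : F[X]) (i : F) (j : ℕ) :
    (X * derivative g - C i * g).coeff j = ((j : F) - i) * g.coeff j := by
  rw [coeff_sub, coeff_C_mul, sub_mul]
  congr 1
  cases j with
  | zero => simp
  | succ j => rw [coeff_X_mul, coeff_derivative]; push_cast; ring

theorem reducible {p : ℕ} [Fact p.Prime] [CharP F p] {n m i : ℕ} {H : F[X]} {a : F}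
    (ha : a ≠ 0) (hns : ¬ IsSquare (((sgn n * sgn m : ℤ) : F) * a)) (hm : 0 < m) (hmn : m < n)
    (hpar : Even (n - m)) (hmi : (m : F) ≠ (i : F)) (hH : H.Monic)
    (hdeg : i + p * H.natDegree = n) (hXH : X ∣ H)
    (hsmall : ∀ P : F[X], P.Monic → 0 < P.natDegree → P.natDegree ≤ m / 2 → P ∣ H)
    (hW : ∀ w : F[X], w.Monic → w.natDegree = m →
      (∀ j < m, (j : F) = (i : F) → w.coeff j = 0) → w ∣ H)
    {r : F[X]} (hr : r.degree < m) : ¬ Irreducible (X ^ i * H ^ p + C a * X ^ m + r) := by
  classical
  have hp0 : p ≠ 0 := (Fact.out : p.Prime).ne_zero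
  set g1 : F[X] := X ^ m + C a⁻¹ * r with hg1
  have hr' : (C a⁻¹ * r).degree < m := by
    refine lt_of_le_of_lt ?_ hr
    rw [degree_C_mul (inv_ne_zero ha)]
  have hg1m : g1.Monic := monic_X_pow_add hr'
  have hg1d : g1.natDegree = m := natDegree_top hr'
  have hg : C a * g1 = C a * X ^ m + r := by
    rw [hg1, mul_add, ← mul_assoc, ← C_mul, mul_inv_cancel₀ ha, C_1, one_mul]
  rw [add_assoc, ← hg]
  have hA : (X ^ i * H ^ p : F[X]).Monic := (monic_X_pow i).mul (hH.pow p)
  have hAd : (X ^ i * H ^ p : F[X]).natDegree = n := by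
    rw [(monic_X_pow i).natDegree_mul (hH.pow p), natDegree_X_pow, hH.natDegree_pow, hdeg]
  have hgd : (C a * g1).natDegree = m := by
    rw [natDegree_C_mul ha, hg1d]
  have hlt : (C a * g1).degree < (X ^ i * H ^ p : F[X]).degree :=
    degree_lt_degree (by rw [hgd, hAd]; exact hmn)
  set f : F[X] := X ^ i * H ^ p + C a * g1 with hf
  have hfm : f.Monic := hA.add_of_left hlt
  have hfd : f.natDegree = n := by
    rw [hf, natDegree_add_eq_left_of_degree_lt hlt, hAd]
  intro hirr
  have hno : ∀ P : F[X], 0 < P.natDegree → P.natDegree < n → ¬ P ∣ f := by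
    rintro P hP1 hP2 ⟨Q, hQ⟩
    rcases hirr.isUnit_or_isUnit hQ with h | h
    · rw [natDegree_eq_zero_of_isUnit h] at hP1
      exact lt_irrefl _ hP1
    · have h2 : Q ≠ 0 := h.ne_zero
      have h3 : P ≠ 0 := by rintro rfl; simp at hP1
      have h1 : f.natDegree = P.natDegree + Q.natDegree := by
        rw [hQ, natDegree_mul h3 h2]
      rw [natDegree_eq_zero_of_isUnit h] at h1
      omega
  have hXA : X ∣ (X ^ i * H ^ p : F[X]) := (hXH.trans (dvd_pow_self _ hp0)).mul_left _
  have hg0 : g1.eval 0 ≠ 0 := by
    intro h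
    refine hno X (by rw [natDegree_X]; exact one_pos) (by rw [natDegree_X]; omega) ?_
    refine dvd_add hXA (Dvd.dvd.mul_left ?_ _)
    rwa [X_dvd_iff, coeff_zero_eq_eval_zero]
  by_cases hgi : Irreducible g1
  · refine hns ?_
    have hcore := core (f := f) (g := g1) (a := a) (i := (i : F))
      (w := X * derivative (C a * g1) - C (i : F) * (C a * g1)) hirr hfm hgi hg1m ha ?_ rfl ?_ ?_
      ?_ hg0 ?_ ?_
    · rwa [hfd, hg1d] at hcore
    · rw [hf]
      have h1 : derivative (H ^ p) = 0 := by
        rw [derivative_pow, CharP.cast_eq_zero, C_0, zero_mul, zero_mul]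
      rw [derivative_add, derivative_mul, h1, mul_zero, add_zero]
      rcases i with _ | i
      · simp
      · rw [derivative_X_pow]
        simp only [Nat.add_sub_cancel]
        ring
    · rw [hg1d]
      refine natDegree_eq_of_le_of_coeff_ne_zero ?_ ?_
      · rw [natDegree_le_iff_coeff_eq_zero]
        intro j hj
        rw [coeff_op, coeff_eq_zero_of_natDegree_lt (by rw [hgd]; exact hj), mul_zero]
      · rw [coeff_op]
        refine mul_ne_zero (sub_ne_zero.2 hmi) ?_
        rw [← hgd, coeff_natDegree, leadingCoeff_ne_zero]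
        exact mul_ne_zero (by simpa using ha) hg1m.ne_zero
    · intro β hβ
      set w : F[X] := X * derivative (C a * g1) - C (i : F) * (C a * g1) with hw
      have hw0 : w.coeff m ≠ 0 := by
        rw [hw, coeff_op]
        refine mul_ne_zero (sub_ne_zero.2 hmi) ?_
        rw [← hgd, coeff_natDegree, leadingCoeff_ne_zero]
        exact mul_ne_zero (by simpa using ha) hg1m.ne_zero
      have hwd : w.natDegree = m := by
        refine natDegree_eq_of_le_of_coeff_ne_zero ?_ hw0
        rw [natDegree_le_iff_coeff_eq_zero]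
        intro j hj
        rw [hw, coeff_op, coeff_eq_zero_of_natDegree_lt (by rw [hgd]; exact hj), mul_zero]
      have hl : w.leadingCoeff ≠ 0 := by rwa [← coeff_natDegree, hwd]
      have h1 : C w.leadingCoeff⁻¹ * w ∣ H := by
        refine hW _ ?_ ?_ ?_
        · rw [mul_comm]; exact monic_mul_leadingCoeff_inv (leadingCoeff_ne_zero.1 hl)
        · rw [natDegree_C_mul (inv_ne_zero hl), hwd]
        · intro j _ hji
          rw [coeff_C_mul, hw, coeff_op, hji, sub_self, zero_mul, mul_zero]
      have h2 : aeval β H = 0 := by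
        obtain ⟨Q, hQ⟩ := h1
        rw [hQ, map_mul, map_mul, hβ, mul_zero, zero_mul]
      rw [hf, map_add, map_mul, map_pow, map_pow, h2, zero_pow hp0, mul_zero, zero_add]
    · rw [hf, eval_add, eval_mul]
      rw [X_dvd_iff, coeff_zero_eq_eval_zero] at hXA
      rw [← eval_mul, hXA, zero_add, eval_mul, eval_C]
    · omega
    · rwa [hfd, hg1d]
  · have h1 : g1 ≠ 1 := by
      intro h
      rw [h, natDegree_one] at hg1d
      omega
    rw [hg1m.irreducible_iff_natDegree'] at hgi
    push Not at hgi
    obtain ⟨P, Q, hP, hQ, hPQ, hQd⟩ := hgi h1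
    rw [Finset.mem_Ioc, hg1d] at hQd
    refine hno Q hQd.1 (by omega) ?_
    refine dvd_add ?_ ?_
    · exact ((hsmall Q hQ hQd.1 hQd.2).trans (dvd_pow_self _ hp0)).mul_left _
    · rw [← hPQ]
      exact (Dvd.intro_left _ rfl).mul_left _

end Pool.Agent.H82.FF
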