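import Pool.Agent.H82.FF.Roots

/-!
# Comparison of the discriminants of two irreducible polynomials with the same
first-order operator
-/

set_option autoImplicit false

open Polynomial

namespace Pool.Agent.H82.FF

variable {F : Type*} [Field F] [Fintype F]

/-- product of the values of `W` at the roots of `h` in terms of the values of `h` at the roots
of `W` -/
theorem prod_eval_swap {K : Type*} [Field K] [IsAlgClosed K] {d : ℕ} {a : Fin d → K} {h : K[X]}
    (hh : h = ∏ i, (X - C (a i))) (W : K[X]) :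
    ∏ i, W.eval (a i) = W.leadingCoeff ^ d * (-1) ^ (d * W.natDegree) *
      (W.roots.map (fun β => h.eval β)).prod := by
  have hs : W.Splits := IsAlgClosed.splits W
  have h1 : ∀ x : K, W.eval x = W.leadingCoeff * (W.roots.map (fun β => x - β)).prod := by
    intro x
    conv_lhs => rw [hs.eq_prod_roots]
    rw [eval_mul, eval_C, eval_multiset_prod, Multiset.map_map]
    simp
  have h2 : ∀ β : K, ∏ i, (a i - β) = (-1) ^ d * h.eval β := by
    intro β
    rw [hh, eval_prod]
    have : ((-1 : K)) ^ d = ∏ _i : Fin d, (-1 : K) := by simp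
    rw [this, ← Finset.prod_mul_distrib]
    refine Finset.prod_congr rfl fun i _ => ?_
    simp
  have h3 : ∏ i, (W.roots.map (fun β => a i - β)).prod =
      (W.roots.map (fun β => ∏ i, (a i - β))).prod := by
    have := Multiset.prod_map_prod_map (Finset.univ : Finset (Fin d)).val W.roots
      (f := fun i β => a i - β)
    exact this
  calc ∏ i, W.eval (a i) = ∏ i, (W.leadingCoeff * (W.roots.map (fun β => a i - β)).prod) :=
        Finset.prod_congr rfl fun i _ => h1 _
    _ = W.leadingCoeff ^ d * (W.roots.map (fun β => ∏ i, (a i - β))).prod := by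
        rw [Finset.prod_mul_distrib, h3]; simp
    _ = W.leadingCoeff ^ d * (W.roots.map (fun β => (-1) ^ d * h.eval β)).prod := by
        simp only [h2]
    _ = _ := by
        rw [Multiset.prod_map_mul, Multiset.map_const', Multiset.prod_replicate,
          ← hs.natDegree_eq_card_roots, ← pow_mul]
        ring

/-- the discriminants of two split polynomials with the same first-order operator -/
theorem core_aux {K : Type*} [Field K] [IsAlgClosed K] {n m k r : ℕ} {α : Fin n → K}
    {γ : Fin m → K} {f g W : K[X]} {A I : K} (hA : A ≠ 0) (hf : f = ∏ i, (X - C (α i)))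
    (hg : g = ∏ i, (X - C (γ i))) (hwf : X * derivative f - C I * f = W)
    (hwg : X * derivative (C A * g) - C I * (C A * g) = W) (hWd : W.natDegree = m)
    (hβ : ∀ β, W ≠ 0 → W.eval β = 0 → f.eval β = A * g.eval β)
    (h0 : f.eval 0 = A * g.eval 0) (hg0 : g.eval 0 ≠ 0) (hnm : n = m + 2 * k)
    (hr : m = r + 1) :
    (Matrix.vandermonde α).det ^ 2 = (sgn n : K) * (sgn m : K) * A *
      (W.leadingCoeff ^ k * A ^ r * (Matrix.vandermonde γ).det) ^ 2 := by
  have hαroot : ∀ j, f.eval (α j) = 0 := by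
    intro j; rw [hf, eval_prod]
    exact Finset.prod_eq_zero (Finset.mem_univ j) (by simp)
  have hγroot : ∀ j, g.eval (γ j) = 0 := by
    intro j; rw [hg, eval_prod]
    exact Finset.prod_eq_zero (Finset.mem_univ j) (by simp)
  have e1 : ∀ j, W.eval (α j) = α j * (derivative f).eval (α j) := by
    intro j
    rw [← hwf]
    simp only [eval_sub, eval_mul, eval_X, eval_C, hαroot j, mul_zero, sub_zero]
  have e2 : ∀ j, W.eval (γ j) = A * (γ j * (derivative g).eval (γ j)) := by
    intro j
    rw [← hwg]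
    simp only [eval_sub, eval_mul, eval_X, eval_C, hγroot j, mul_zero, sub_zero,
      derivative_C_mul]
    ring
  have p1 : f.eval 0 = (-1) ^ n * ∏ j, α j := by
    rw [hf, eval_prod]
    simp only [eval_sub, eval_X, eval_C, zero_sub]
    rw [Finset.prod_neg]
    simp
  have p2 : g.eval 0 = (-1) ^ m * ∏ j, γ j := by
    rw [hg, eval_prod]
    simp only [eval_sub, eval_X, eval_C, zero_sub]
    rw [Finset.prod_neg]
    simp
  have hneg : ∀ t : ℕ, ((-1 : K)) ^ t * (-1) ^ t = 1 := by
    intro t; rw [← mul_pow]; simp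
  have p1' : ∏ j, α j = (-1) ^ n * (A * g.eval 0) := by
    rw [← h0, p1, ← mul_assoc, hneg, one_mul]
  have p2' : ∏ j, γ j = (-1) ^ m * g.eval 0 := by
    rw [p2, ← mul_assoc, hneg, one_mul]
  have s1 := prod_eval_swap hf W
  have s2 := prod_eval_swap hg W
  rw [hWd] at s1 s2
  set P : K := (W.roots.map (fun β => f.eval β)).prod with hP
  set Q : K := (W.roots.map (fun β => g.eval β)).prod with hQ
  have hPg : P = A ^ m * Q := by
    rw [hP, hQ]
    have h1 : (W.roots.map (fun β => f.eval β)) = (W.roots.map (fun β => A * g.eval β)) := by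
      refine Multiset.map_congr rfl fun β hβ' => ?_
      exact hβ β (mem_roots'.1 hβ').1 (mem_roots'.1 hβ').2
    rw [h1, Multiset.prod_map_mul, Multiset.map_const', Multiset.prod_replicate,
      ← (IsAlgClosed.splits W).natDegree_eq_card_roots, hWd]
  have d1 := prod_derivative hf
  have d2 := prod_derivative hg
  set δ : K := (Matrix.vandermonde α).det with hδ
  set ε : K := (Matrix.vandermonde γ).det with hε
  set b : K := W.leadingCoeff with hb
  set G0 : K := g.eval 0 with hG0
  have k1 : b ^ n * (-1) ^ (n * m) * P = (-1) ^ n * (A * G0) * ((sgn n : K) * δ ^ 2) := by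
    rw [← s1, ← p1', ← d1, ← Finset.prod_mul_distrib]
    exact Finset.prod_congr rfl fun j _ => e1 j
  have k2 : b ^ m * (-1) ^ (m * m) * Q = A ^ m * ((-1) ^ m * G0 * ((sgn m : K) * ε ^ 2)) := by
    rw [← s2, ← p2', ← d2, ← Finset.prod_mul_distrib]
    rw [Finset.prod_congr rfl fun j _ => e2 j, Finset.prod_mul_distrib]
    simp
  have hs1 : ((-1 : K)) ^ (n * m) = (-1) ^ (m * m) := by
    rw [hnm, add_mul, pow_add, mul_assoc, pow_mul (-1) 2]; simp
  have hs2 : ((-1 : K)) ^ n = (-1) ^ m := by
    rw [hnm, pow_add, pow_mul (-1) 2]; simp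
  have hsn : ((sgn n : ℤ) : K) * (sgn n : K) = 1 := by
    rw [← Int.cast_mul, sgn_mul_self, Int.cast_one]
  have k3 : (-1) ^ m * (A * G0) * ((sgn n : K) * δ ^ 2) =
      (b ^ k) ^ 2 * A ^ m * (A ^ m * ((-1) ^ m * G0 * ((sgn m : K) * ε ^ 2))) := by
    rw [← k2, ← hs2, ← k1, hs1, hPg, hnm, pow_add]
    ring
  have hne : ((-1 : K)) ^ m * (A * G0) ≠ 0 :=
    mul_ne_zero (pow_ne_zero _ (by norm_num)) (mul_ne_zero hA hg0)
  have k4 : (-1) ^ m * (A * G0) * ((sgn n : K) * δ ^ 2) =
      (-1) ^ m * (A * G0) * ((b ^ k) ^ 2 * A ^ (2 * r + 1) * ((sgn m : K) * ε ^ 2)) := by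
    rw [k3, hr]; ring
  have k5 := mul_left_cancel₀ hne k4
  calc δ ^ 2 = (sgn n : K) * ((sgn n : K) * δ ^ 2) := by rw [← mul_assoc, hsn, one_mul]
    _ = (sgn n : K) * ((b ^ k) ^ 2 * A ^ (2 * r + 1) * ((sgn m : K) * ε ^ 2)) := by rw [k5]
    _ = _ := by ring

theorem core {f g : F[X]} {a i : F} (hf : Irreducible f) (hfm : f.Monic) (hg : Irreducible g)
    (hgm : g.Monic) (ha : a ≠ 0) {w : F[X]}
    (hwf : X * derivative f - C i * f = w)
    (hwg : X * derivative (C a * g) - C i * (C a * g) = w)
    (hwd : w.natDegree = g.natDegree)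
    (hβ : ∀ β : AlgebraicClosure F, aeval β w = 0 → aeval β f = aeval β (C a * g))
    (h0 : f.eval 0 = a * g.eval 0) (hg0 : g.eval 0 ≠ 0)
    (hle : g.natDegree ≤ f.natDegree) (hpar : Even (f.natDegree - g.natDegree)) :
    IsSquare (((sgn f.natDegree * sgn g.natDegree : ℤ) : F) * a) := by
  classical
  obtain ⟨α, hα, hfα, hα'⟩ := exists_roots (K := AlgebraicClosure F) hf hfm
  obtain ⟨γ, hγ, hgγ, hγ'⟩ := exists_roots (K := AlgebraicClosure F) hg hgm
  obtain ⟨k, hk⟩ := hpar
  have hmpos : 0 < g.natDegree := hg.natDegree_pos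
  obtain ⟨r, hr⟩ : ∃ r, g.natDegree = r + 1 := ⟨g.natDegree - 1, by omega⟩
  have hnm : f.natDegree = g.natDegree + 2 * k := by omega
  set φ := algebraMap F (AlgebraicClosure F) with hφ
  have hφi : Function.Injective φ := φ.injective
  have hw1 : w.map φ = X * derivative (f.map φ) - C (φ i) * f.map φ := by
    rw [← hwf]; simp
  have hw2 : w.map φ = X * derivative (C (φ a) * g.map φ) - C (φ i) * (C (φ a) * g.map φ) := by
    rw [← hwg]; simp [Polynomial.map_mul]
  have main := core_aux (n := f.natDegree) (m := g.natDegree) (k := k) (r := r) (α := α) (γ := γ)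
    (f := f.map φ) (g := g.map φ) (W := w.map φ) (A := φ a) (I := φ i)
    (by simpa using ha) hfα hgγ hw1.symm hw2.symm
    (by rw [natDegree_map, hwd])
    (by
      intro β _ h
      rw [eval_map_algebraMap] at h
      have := hβ β h
      rw [map_mul, aeval_C] at this
      rwa [eval_map_algebraMap, eval_map_algebraMap])
    (by
      rw [← map_zero φ, eval_map_apply, eval_map_apply, h0, map_mul])
    (by
      rw [← map_zero φ, eval_map_apply]
      simpa using hg0) hnm hr
  set δ := (Matrix.vandermonde α).det with hδ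
  set ε := (Matrix.vandermonde γ).det with hε
  have hδ0 : δ ≠ 0 := (Matrix.det_vandermonde_ne_zero_iff).2 hα
  have hε0 : ε ≠ 0 := (Matrix.det_vandermonde_ne_zero_iff).2 hγ
  have f1 := vandermonde_pow (F := F) hα'
  have f2 := vandermonde_pow (F := F) hγ'
  rw [← hδ] at f1
  rw [← hε] at f2
  have hsign : ((-1 : AlgebraicClosure F)) ^ (f.natDegree - 1) = (-1) ^ (g.natDegree - 1) := by
    have : f.natDegree - 1 = (g.natDegree - 1) + 2 * k := by omega
    rw [this, pow_add, pow_mul (-1) 2]; simp
  have hτ : (δ / ε) ^ Fintype.card F = δ / ε := by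
    rw [div_pow, f1, f2, hsign]
    have : ((-1 : AlgebraicClosure F)) ^ (g.natDegree - 1) ≠ 0 := pow_ne_zero _ (by norm_num)
    rw [mul_div_mul_left _ _ this]
  obtain ⟨t, ht⟩ : ∃ t : F, φ t = δ / ε := by
    have hsp : ((X ^ Fintype.card F - X : F[X])).Splits := by
      rw [splits_iff_card_roots, FiniteField.roots_X_pow_card_sub_X,
        FiniteField.X_pow_card_sub_X_natDegree_eq F Fintype.one_lt_card, ← Finset.card_def,
        Finset.card_univ]
    have h1 : (X ^ Fintype.card F - X : F[X]) ≠ 0 :=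
      FiniteField.X_pow_card_sub_X_ne_zero F Fintype.one_lt_card
    have h2 : aeval (δ / ε) (X ^ Fintype.card F - X : F[X]) = 0 := by
      simp [hτ]
    rw [hsp.eq_prod_roots, map_mul, aeval_C, map_multiset_prod, Multiset.map_map,
      mul_eq_zero] at h2
    rcases h2 with h2 | h2
    · rw [map_eq_zero, leadingCoeff_eq_zero] at h2
      exact absurd h2 h1
    · rw [Multiset.prod_eq_zero_iff, Multiset.mem_map] at h2
      obtain ⟨x, _, hx⟩ := h2
      refine ⟨x, ?_⟩
      simp only [Function.comp_apply, map_sub, aeval_X, aeval_C, sub_eq_zero] at hx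
      exact hx.symm
  have hlc : (w.map φ).leadingCoeff = φ w.leadingCoeff := leadingCoeff_map _
  have h1 : φ (t ^ 2) = φ (((sgn f.natDegree * sgn g.natDegree : ℤ) : F) * a *
      (w.leadingCoeff ^ k * a ^ r) ^ 2) := by
    rw [map_pow, ht, div_pow, main, hlc]
    field_simp
    simp
  have h2 := hφi h1
  have hw0 : w.leadingCoeff ≠ 0 := by
    rw [leadingCoeff_ne_zero]
    rintro rfl
    rw [natDegree_zero] at hwd
    omega
  have hc : w.leadingCoeff ^ k * a ^ r ≠ 0 := mul_ne_zero (pow_ne_zero _ hw0) (pow_ne_zero _ ha)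
  refine ⟨t / (w.leadingCoeff ^ k * a ^ r), ?_⟩
  field_simp
  rw [h2]
  ring

end Pool.Agent.H82.FF
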