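import Pool.Agent.H82.FF.Cons

/-!
# Intervals of reducible polynomials, with an explicit condition on the length
-/

set_option autoImplicit false

open Polynomial

namespace Pool.Agent.H82.FF

variable {F : Type*} [Field F] [Fintype F]

theorem sum_le (q : ℕ) (hq : 2 ≤ q) (k : ℕ) :
    ∑ D ∈ Finset.Icc 1 k, q ^ D * D ≤ 2 * k * q ^ k := by
  induction k with
  | zero => simp
  | succ k ih =>
    rw [Finset.sum_Icc_succ_top (by omega)]
    have h1 : 2 * k * q ^ k ≤ k * q ^ (k + 1) := by
      rw [pow_succ]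
      calc 2 * k * q ^ k = k * (q ^ k * 2) := by ring
        _ ≤ k * (q ^ k * q) := by gcongr
    calc _ ≤ 2 * k * q ^ k + q ^ (k + 1) * (k + 1) := by gcongr
      _ ≤ k * q ^ (k + 1) + q ^ (k + 1) * (k + 1) := by gcongr
      _ ≤ k * q ^ (k + 1) + q ^ (k + 1) * (k + 1) + q ^ (k + 1) := Nat.le_add_right _ _
      _ = _ := by ring

theorem exists_H {m N s : ℕ} (J : Finset ℕ) (hJ : J ⊆ Finset.range m) (hcard : J.card ≤ s)
    (hms : m / 2 ≤ s) (hN : 2 * m * Fintype.card F ^ s + 1 ≤ N) :
    ∃ H : F[X], H.Monic ∧ H.natDegree = N ∧ X ∣ H ∧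
      (∀ P : F[X], P.Monic → 0 < P.natDegree → P.natDegree ≤ m / 2 → P ∣ H) ∧
      (∀ w : F[X], w.Monic → w.natDegree = m → (∀ j < m, j ∉ J → w.coeff j = 0) → w ∣ H) := by
  have hq : 2 ≤ Fintype.card F := Fintype.one_lt_card
  set q := Fintype.card F with hqdef
  set A : F[X] := ∏ D ∈ Finset.Icc 1 (m / 2), prodAll F (Finset.range D) D with hA
  have hAm : A.Monic := monic_prod_of_monic _ _ fun D _ => prodAll_monic subset_rfl
  have hAd : A.natDegree ≤ m * q ^ s := by
    rw [hA, natDegree_prod_of_monic _ _ fun D _ => prodAll_monic subset_rfl]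
    calc ∑ D ∈ Finset.Icc 1 (m / 2), (prodAll F (Finset.range D) D).natDegree
        = ∑ D ∈ Finset.Icc 1 (m / 2), q ^ D * D := by
          refine Finset.sum_congr rfl fun D _ => ?_
          rw [prodAll_natDegree subset_rfl, Finset.card_range]
      _ ≤ 2 * (m / 2) * q ^ (m / 2) := sum_le q hq _
      _ ≤ m * q ^ s := by
          gcongr
          · omega
          · omega
  set B : F[X] := prodAll F J m with hB
  have hBm : B.Monic := prodAll_monic hJ
  have hBd : B.natDegree ≤ m * q ^ s := by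
    rw [hB, prodAll_natDegree hJ, mul_comm]
    gcongr
    omega
  have hAB : (A * B).natDegree + 1 ≤ N := by
    rw [hAm.natDegree_mul hBm]
    have : 2 * m * q ^ s = m * q ^ s + m * q ^ s := by ring
    omega
  refine ⟨X ^ (N - (A * B).natDegree) * (A * B), (monic_X_pow _).mul (hAm.mul hBm), ?_, ?_, ?_, ?_⟩
  · rw [(monic_X_pow _).natDegree_mul (hAm.mul hBm), natDegree_X_pow]
    omega
  · exact (dvd_pow_self _ (by omega)).mul_right _
  · intro P hP hP1 hP2
    refine Dvd.dvd.mul_left (Dvd.dvd.mul_right ?_ _) _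
    have h1 : P ∣ prodAll F (Finset.range P.natDegree) P.natDegree := by
      refine dvd_prodAll hP rfl (fun j hj hj' => ?_) subset_rfl
      exact absurd (Finset.mem_range.2 hj) hj'
    exact h1.trans (Finset.dvd_prod_of_mem _ (Finset.mem_Icc.2 ⟨hP1, hP2⟩))
  · intro w hw hwd hwc
    exact Dvd.dvd.mul_left (Dvd.dvd.mul_left (dvd_prodAll hw hwd hwc hJ) _) _

omit [Fintype F] in
theorem card_le {p m i : ℕ} (hp : 0 < p) [CharP F p] [DecidableEq F] :
    ((Finset.range m).filter (fun j : ℕ => (j : F) ≠ (i : F))).card ≤ m - m / p := by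
  have h1 := Finset.card_filter_add_card_filter_not (s := Finset.range m)
    (fun j : ℕ => (j : F) = (i : F))
  have h2 : m / p ≤ ((Finset.range m).filter (fun j : ℕ => (j : F) = (i : F))).card := by
    have h3 := Nat.count_modEq_card (r := p) m hp i
    rw [Nat.count_eq_card_filter_range] at h3
    have h4 : (Finset.range m).filter (fun j : ℕ => (j : F) = (i : F)) =
        (Finset.range m).filter (fun j : ℕ => j ≡ i [MOD p]) := by
      refine Finset.filter_congr fun j _ => ?_
      exact CharP.natCast_eq_natCast F p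
    rw [h4, h3]
    omega
  rw [Finset.card_range] at h1
  change ((Finset.range m).filter (fun j : ℕ => ¬ (j : F) = (i : F))).card ≤ _
  omega

/-- **intervals of reducible polynomials of length `q ^ m`, `m` about `log n / log q` times
`p / (p - 1)`** -/
theorem interval {p : ℕ} [CharP F p] (hp2 : p ≠ 2) {n m : ℕ} (hm : 0 < m)
    (hpar : Even (n - m)) (hmod : ¬ m ≡ n [MOD p])
    (hn : p * (2 * m * Fintype.card F ^ (m - m / p) + 1) ≤ n) :
    m < n ∧ ∃ f₀ : F[X], f₀.Monic ∧ f₀.natDegree = n ∧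
      ∀ f : F[X], (f - f₀).degree < (m : WithBot ℕ) → ¬ Irreducible f := by
  classical
  have hp : p.Prime := CharP.char_is_prime F p
  have : Fact p.Prime := ⟨hp⟩
  have hq1 : 1 ≤ Fintype.card F ^ (m - m / p) := Nat.one_le_pow _ _ Fintype.card_pos
  have hmn : m < n := by
    refine lt_of_lt_of_le ?_ hn
    have h1 : m * 1 ≤ m * Fintype.card F ^ (m - m / p) := Nat.mul_le_mul_left _ hq1
    have h2 : 1 * (2 * m * Fintype.card F ^ (m - m / p) + 1) ≤
      p * (2 * m * Fintype.card F ^ (m - m / p) + 1) := Nat.mul_le_mul_right _ hp.one_le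
    have h3 : 2 * m * Fintype.card F ^ (m - m / p) = 2 * (m * Fintype.card F ^ (m - m / p)) := by
      ring
    omega
  refine ⟨hmn, ?_⟩
  have hr2 : ringChar F ≠ 2 := by rwa [ringChar.eq F p]
  obtain ⟨ν, hν⟩ := FiniteField.exists_nonsquare hr2
  set ε : F := ((sgn n * sgn m : ℤ) : F) with hε
  have hεε : ε * ε = 1 := by
    rw [hε, ← Int.cast_mul]
    have : sgn n * sgn m * (sgn n * sgn m) = (sgn n * sgn n) * (sgn m * sgn m) := by ring
    rw [this, sgn_mul_self, sgn_mul_self, one_mul, Int.cast_one]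
  have hε0 : ε ≠ 0 := by rintro h; rw [h, mul_zero] at hεε; exact zero_ne_one hεε
  have hν0 : ν ≠ 0 := by rintro rfl; exact hν (IsSquare.zero)
  set J := (Finset.range m).filter (fun j : ℕ => (j : F) ≠ ((n % p : ℕ) : F)) with hJ
  have hN : 2 * m * Fintype.card F ^ (m - m / p) + 1 ≤ n / p := by
    rw [Nat.le_div_iff_mul_le hp.pos, mul_comm]
    exact hn
  obtain ⟨H, hHm, hHd, hXH, hsmall, hW⟩ := exists_H (F := F) (m := m) (N := n / p)
    (s := m - m / p) J (Finset.filter_subset _ _) (card_le hp.pos) (by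
      have : m / p ≤ m / 2 := Nat.div_le_div_left hp.two_le (by norm_num)
      omega) hN
  have hdeg : n % p + p * H.natDegree = n := by rw [hHd]; exact Nat.mod_add_div n p
  have hfm : (X ^ (n % p) * H ^ p : F[X]).Monic := (monic_X_pow _).mul (hHm.pow p)
  have hfd : (X ^ (n % p) * H ^ p : F[X]).natDegree = n := by
    rw [(monic_X_pow _).natDegree_mul (hHm.pow p), natDegree_X_pow, hHm.natDegree_pow, hdeg]
  have ha : ε * ν ≠ 0 := mul_ne_zero hε0 hν0
  have hlt : (C (ε * ν) * X ^ m : F[X]).degree < (X ^ (n % p) * H ^ p : F[X]).degree := by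
    refine degree_lt_degree ?_
    rw [hfd, natDegree_C_mul_X_pow _ _ ha]
    exact hmn
  refine ⟨X ^ (n % p) * H ^ p + C (ε * ν) * X ^ m, hfm.add_of_left hlt, ?_, ?_⟩
  · rw [natDegree_add_eq_left_of_degree_lt hlt, hfd]
  · intro f hf
    have key := reducible (F := F) (p := p) (n := n) (m := m) (i := n % p) (H := H)
      (a := ε * ν) ha ?_ hm hmn hpar ?_ hHm hdeg hXH hsmall ?_ hf
    · rwa [add_sub_cancel] at key
    · rw [← hε, ← mul_assoc, hεε, one_mul]
      exact hν
    · intro h
      refine hmod ?_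
      rw [CharP.natCast_eq_natCast F p] at h
      exact h.trans (Nat.mod_modEq n p)
    · intro w hw hwd hwc
      refine hW w hw hwd fun j hj hj' => hwc j hj ?_
      by_contra hne
      exact hj' (Finset.mem_filter.2 ⟨Finset.mem_range.2 hj, hne⟩)

end Pool.Agent.H82.FF
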