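import Mathlib

/-!
# Roots of an irreducible polynomial over a finite field, and the sign of the Frobenius
-/

set_option autoImplicit false

open Polynomial

namespace Pool.Agent.H82.FF

variable {F K : Type*} [Field F] [Fintype F] [Field K] [Algebra F K]

/-- the roots of a monic irreducible polynomial are permuted cyclically by the Frobenius -/
theorem exists_roots [IsAlgClosed K] {h : F[X]} (hi : Irreducible h) (hm : h.Monic) :
    ∃ a : Fin h.natDegree → K, Function.Injective a ∧
      h.map (algebraMap F K) = ∏ i, (X - C (a i)) ∧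
      ∀ i, a i ^ Fintype.card F = a (finRotate _ i) := by
  classical
  have : Fact (Irreducible h) := ⟨hi⟩
  have h0 : h ≠ 0 := hi.ne_zero
  have : Module.Finite F (AdjoinRoot h) := (AdjoinRoot.powerBasis h0).finite
  have : Finite (AdjoinRoot h) := Module.finite_of_finite F
  let _ : Fintype (AdjoinRoot h) := Fintype.ofFinite _
  have hd : Module.finrank F (AdjoinRoot h) = h.natDegree := by
    rw [(AdjoinRoot.powerBasis h0).finrank, AdjoinRoot.powerBasis_dim]
  have hpos : 0 < h.natDegree := hi.natDegree_pos
  set q := Fintype.card F with hq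
  set θ : AdjoinRoot h := AdjoinRoot.root h with hθ
  have hfrob : ∀ k : ℕ, (FiniteField.frobeniusAlgHom F (AdjoinRoot h) ^ k) θ = θ ^ q ^ k := by
    intro k
    induction k with
    | zero => simp
    | succ k ih =>
      rw [pow_succ', AlgHom.mul_apply, ih, FiniteField.coe_frobeniusAlgHom]
      simp only
      rw [← pow_mul, ← pow_succ]
  have hcyc : θ ^ q ^ h.natDegree = θ := by
    have h1 : Fintype.card (AdjoinRoot h) = q ^ h.natDegree := by
      rw [Module.card_eq_pow_finrank (K := F), hd]
    rw [← h1, FiniteField.pow_card]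
  have hinj : ∀ i j : Fin h.natDegree, θ ^ q ^ (i : ℕ) = θ ^ q ^ (j : ℕ) → i = j := by
    intro i j hij
    rw [← hfrob, ← hfrob] at hij
    have h1 : FiniteField.frobeniusAlgHom F (AdjoinRoot h) ^ (i : ℕ) =
        FiniteField.frobeniusAlgHom F (AdjoinRoot h) ^ (j : ℕ) := AdjoinRoot.algHom_ext hij
    have h2 := (FiniteField.bijective_frobeniusAlgHom_pow F (AdjoinRoot h)).1
      (a₁ := Fin.cast hd.symm i) (a₂ := Fin.cast hd.symm j) h1
    have h3 := congrArg Fin.val h2
    exact Fin.ext (by simpa using h3)
  obtain ⟨α, hα⟩ := IsAlgClosed.exists_aeval_eq_zero K h (by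
    rw [degree_eq_natDegree h0]; exact_mod_cast hpos.ne')
  set φ : AdjoinRoot h →ₐ[F] K := AdjoinRoot.liftAlgHom h (Algebra.ofId F K) α hα with hφ
  have hφi : Function.Injective φ := φ.toRingHom.injective
  have hroot : ∀ k : ℕ, aeval (θ ^ q ^ k) h = 0 := by
    intro k
    rw [← hfrob, aeval_algHom_apply, hθ, AdjoinRoot.aeval_eq, AdjoinRoot.mk_self, map_zero]
  refine ⟨fun i => φ (θ ^ q ^ (i : ℕ)), ?_, ?_, ?_⟩
  · intro i j hij
    exact hinj i j (hφi hij)
  · have hinj' : Function.Injective (fun i : Fin h.natDegree => φ (θ ^ q ^ (i : ℕ))) :=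
      fun i j hij => hinj i j (hφi hij)
    have hdvd : ∏ i : Fin h.natDegree, (X - C (φ (θ ^ q ^ (i : ℕ)))) ∣
        h.map (algebraMap F K) := by
      refine Finset.prod_dvd_of_coprime
        (fun i _ j _ hij => pairwise_coprime_X_sub_C hinj' hij) (fun i _ => ?_)
      rw [dvd_iff_isRoot, IsRoot.def, eval_map_algebraMap, aeval_algHom_apply, hroot, map_zero]
    refine eq_of_monic_of_dvd_of_natDegree_le (monic_prod_of_monic _ _
      fun i _ => monic_X_sub_C _) (hm.map _) hdvd ?_
    rw [natDegree_prod_of_monic _ _ fun i _ => monic_X_sub_C _]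
    simp only [natDegree_X_sub_C, Finset.sum_const, Finset.card_univ, Fintype.card_fin,
      smul_eq_mul, mul_one, natDegree_map, le_refl]
  · intro i
    simp only
    rw [← map_pow, ← pow_mul, ← pow_succ]
    congr 1
    obtain ⟨d, hdd⟩ : ∃ d, h.natDegree = d + 1 := ⟨h.natDegree - 1, by omega⟩
    have key : ∀ (n : ℕ) (i : Fin n) (hn : n = h.natDegree),
        θ ^ q ^ ((i : ℕ) + 1) = θ ^ q ^ ((finRotate n i : Fin n) : ℕ) := by
      intro n i hn
      rcases n with _ | n
      · exact i.elim0
      · by_cases hlast : i = Fin.last n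
        · subst hlast
          rw [finRotate_last, Fin.val_zero, Fin.val_last, hn, hcyc, pow_zero, pow_one]
        · have h1 : (i : ℕ) < n := by
            have := i.2
            have h2 : (i : ℕ) ≠ n := fun h3 => hlast (Fin.ext h3)
            omega
          rw [finRotate_apply, Fin.val_add_one_of_lt (by rwa [Fin.lt_def])]
    exact key _ i rfl

/-- the sign relating the square of the Vandermonde determinant to the product of the values of
the derivative at the roots -/
def sgn (d : ℕ) : ℤ := ∏ i : Fin d, ∏ _j ∈ Finset.Ioi i, (-1)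

theorem sgn_mul_self (d : ℕ) : sgn d * sgn d = 1 := by
  unfold sgn
  rw [← Finset.prod_mul_distrib]
  refine Finset.prod_eq_one fun i _ => ?_
  rw [← Finset.prod_mul_distrib]
  exact Finset.prod_eq_one fun j _ => by norm_num

/-- values of the derivative at the roots -/
theorem prod_derivative {d : ℕ} {h : K[X]} {a : Fin d → K} (hf : h = ∏ i, (X - C (a i))) :
    ∏ i, (derivative h).eval (a i) =
      (sgn d : K) * (Matrix.vandermonde a).det ^ 2 := by
  classical
  have h1 : h = Lagrange.nodal Finset.univ a := hf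
  have h2 : ∀ i, (derivative h).eval (a i) = ∏ j ∈ Finset.univ.erase i, (a i - a j) := by
    intro i
    rw [h1, Lagrange.eval_nodal_derivative_eval_node_eq (Finset.mem_univ i), Lagrange.eval_nodal]
  have h3 : ∀ i : Fin d, ∏ j ∈ Finset.univ.erase i, (a i - a j) =
      (∏ j ∈ Finset.Iio i, (a i - a j)) * ∏ j ∈ Finset.Ioi i, (a i - a j) := by
    intro i
    rw [← Finset.prod_union]
    · congr 1
      ext j
      simp only [Finset.mem_erase, Finset.mem_univ, and_true, Finset.mem_union, Finset.mem_Iio,
        Finset.mem_Ioi]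
      exact ne_iff_lt_or_gt
    · rw [Finset.disjoint_left]
      intro j hj hj'
      rw [Finset.mem_Iio] at hj
      rw [Finset.mem_Ioi] at hj'
      exact absurd hj (not_lt.2 hj'.le)
  have h4 : ∏ i, ∏ j ∈ Finset.Iio i, (a i - a j) = (Matrix.vandermonde a).det := by
    rw [Matrix.det_vandermonde]
    refine Finset.prod_comm' (fun x y => ?_)
    simp [and_comm]
  have h5 : ∏ i, ∏ j ∈ Finset.Ioi i, (a i - a j) =
      (sgn d : K) * (Matrix.vandermonde a).det := by
    rw [Matrix.det_vandermonde]
    unfold sgn
    push_cast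
    rw [← Finset.prod_mul_distrib]
    refine Finset.prod_congr rfl fun i _ => ?_
    rw [← Finset.prod_mul_distrib]
    refine Finset.prod_congr rfl fun j _ => ?_
    ring
  calc ∏ i, (derivative h).eval (a i)
      = ∏ i, ((∏ j ∈ Finset.Iio i, (a i - a j)) * ∏ j ∈ Finset.Ioi i, (a i - a j)) :=
        Finset.prod_congr rfl fun i _ => by rw [h2, h3]
    _ = _ := by rw [Finset.prod_mul_distrib, h4, h5]; ring

/-- the Frobenius multiplies the Vandermonde determinant by `(-1) ^ (d - 1)` -/
theorem vandermonde_pow {d : ℕ} {a : Fin d → K}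
    (ha : ∀ i, a i ^ Fintype.card F = a (finRotate _ i)) :
    (Matrix.vandermonde a).det ^ Fintype.card F = (-1) ^ (d - 1) * (Matrix.vandermonde a).det := by
  have h1 : (Matrix.vandermonde a).det ^ Fintype.card F =
      FiniteField.frobeniusAlgHom F K (Matrix.vandermonde a).det := by
    rw [FiniteField.coe_frobeniusAlgHom]
  rw [h1, AlgHom.map_det]
  have h2 : (FiniteField.frobeniusAlgHom F K).mapMatrix (Matrix.vandermonde a) =
      (Matrix.vandermonde a).submatrix (finRotate d) id := by
    ext i j
    simp only [AlgHom.mapMatrix_apply, Matrix.map_apply, Matrix.vandermonde_apply,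
      Matrix.submatrix_apply, id]
    rw [FiniteField.coe_frobeniusAlgHom]
    simp only
    rw [← ha, ← pow_mul, ← pow_mul, mul_comm]
  rw [h2, Matrix.det_permute, sign_finRotate]
  simp

end Pool.Agent.H82.FF
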